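import Pool.Agent.H91.PSL.Chn

/-!
# Phase slip lemma: integer boxes are acyclic
-/

set_option autoImplicit false

namespace Pool.Agent.H91.PSL

open Pool.Agent.H47.ST

variable {ι : Type*} [Fintype ι] {F : Type*} [Field F]

theorem sz_false : sz false = -1 := rfl

/-- relative cohomology of a box modulo its lowest corner -/
theorem box_HR [DecidableEq ι] (F : Type*) [Field F] {lo hi : ι → ℤ} (h : lo ≤ hi) (j : ℕ) :
    HR F (⊥ : AddSubgroup (ι → ℤ)) (Set.Icc lo hi) {lo} j 0 := by
  classical
  have hI : ∀ A : Set (ι → ℤ), Inv (⊥ : AddSubgroup (ι → ℤ)) A := by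
    intro A l hl v
    rw [AddSubgroup.mem_bot] at hl
    rw [hl, add_zero]
  have h1 := band_HR (F := F) (⊥ : AddSubgroup (ι → ℤ))
    (fun l hl _ => (AddSubgroup.mem_bot).1 hl) {lo} (Set.Icc lo hi)
    (fun v hv => by
      rw [Set.mem_singleton_iff] at hv
      rw [hv]
      exact ⟨le_rfl, h⟩) (hI _) (hI _)
    ⟨Finset.Icc lo hi, fun v hv _ => ⟨0, (⊥ : AddSubgroup (ι → ℤ)).zero_mem, by
      rw [add_zero]
      exact Finset.mem_Icc.2 hv⟩⟩
    (fun v => ((∑ i, v i : ℤ) : ℝ)) (fun l hl v => by
      rw [AddSubgroup.mem_bot] at hl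
      rw [hl, add_zero]) ∅ (fun _ _ => false)
    (fun v hv hvl => Or.inl (by
      obtain ⟨i, hi'⟩ : ∃ i, lo i < v i := by
        by_contra hcon
        push Not at hcon
        exact hvl (Set.mem_singleton_iff.2 (le_antisymm hcon hv.1))
      refine ⟨i, false, fun w _ hs hw => ?_⟩
      rw [sz_false] at hs ⊢
      have hwi : v i ≤ w i := by linarith
      have hwB : w ∈ Set.Icc lo hi ∧ ((∑ k, w k : ℤ) : ℝ) ≤ ((∑ k, v k : ℤ) : ℝ) := by
        rcases hw with rfl | hw | hw
        · exact ⟨hv, le_rfl⟩
        · rw [Set.mem_singleton_iff] at hw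
          rw [hw] at hwi
          exact absurd hwi (by linarith)
        · exact hw
      have hsum : (∑ k, (w + (Pi.single i (-1) : ι → ℤ)) k : ℤ) = (∑ k, w k) - 1 := by
        have h0 : ∀ k, (w + (Pi.single i (-1) : ι → ℤ)) k =
            w k + (Pi.single i (-1) : ι → ℤ) k := fun k => rfl
        rw [Finset.sum_congr rfl fun k _ => h0 k, Finset.sum_add_distrib,
          Fintype.sum_pi_single']
        ring
      refine Or.inr ⟨⟨?_, ?_⟩, ?_⟩
      · intro k
        by_cases hk : k = i
        · subst hk
          rw [Pi.add_apply, Pi.single_eq_same]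
          linarith
        · rw [Pi.add_apply, Pi.single_eq_of_ne hk, add_zero]
          exact hwB.1.1 k
      · intro k
        by_cases hk : k = i
        · subst hk
          rw [Pi.add_apply, Pi.single_eq_same]
          linarith [hwB.1.2 k]
        · rw [Pi.add_apply, Pi.single_eq_of_ne hk, add_zero]
          exact hwB.1.2 k
      · change ((∑ k, (w + (Pi.single i (-1) : ι → ℤ)) k : ℤ) : ℝ) < ((∑ k, v k : ℤ) : ℝ)
        rw [hsum]
        have := hwB.2
        rw [Int.cast_sub, Int.cast_one]
        linarith)) j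
  simpa using h1

/-- a chain on vertices with sum zero pairs to zero with constants -/
theorem box_one {X : Set (ι → ℤ)} {z : Ch ι F} (hz : z ∈ Sc F X 1) (hb : bd z = 0) (a : F)
    (c : Co ι F) (hc : ∀ σ, In X σ → σ.card = 1 → c σ = a) : pa c z = 0 := by
  classical
  have h1 : pa c z = pa (dd (fun τ => if τ = ∅ then a else 0)) z := by
    refine pa_congr fun σ hσ => ?_
    obtain ⟨h2, h3⟩ := mem_Sc.1 hz σ hσ
    rw [hc σ h2 h3]
    obtain ⟨v, rfl⟩ := Finset.card_eq_one.1 h3
    rw [dd_apply, Finset.sum_singleton, Finset.erase_singleton, if_pos rfl]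
    have : sgn F {v} v = 1 := by
      unfold sgn
      have h4 : (({v} : Finset (ι → ℤ)).filter (fun w => w < v)) = ∅ := by
        rw [Finset.filter_eq_empty_iff]
        intro w hw
        rw [Finset.mem_singleton] at hw
        rw [hw]
        exact lt_irrefl _
      rw [h4]
      simp
    rw [this, one_mul]
  rw [h1, ← pa_bd, hb, map_zero]

/-- **Boxes are acyclic.** -/
theorem box_acyclic {lo hi : ι → ℤ} (h : lo ≤ hi) {j : ℕ} {z : Ch ι F}
    (hz : z ∈ Sc F (Set.Icc lo hi) j) (hb : bd z = 0) :
    ∃ w ∈ Sc F (Set.Icc lo hi) (j + 1), bd w = z := by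
  classical
  have hloI : In (Set.Icc lo hi) {lo} := by
    refine ⟨fun v hv w hw => ?_, fun v hv => ?_⟩
    · rw [Finset.mem_singleton] at hv hw
      rw [hv, hw]
      exact Or.inl ⟨le_rfl, fun i => by simp⟩
    · rw [Finset.mem_singleton] at hv
      rw [hv]
      exact ⟨le_rfl, h⟩
  cases j with
  | zero =>
    refine ⟨Finsupp.single {lo} (z ∅), single_mem_Sc hloI (Finset.card_singleton _) _, ?_⟩
    have h1 : bd (Finsupp.single {lo} (z ∅)) = z ∅ • bd (Finsupp.single {lo} (1 : F)) := by
      rw [← map_smul, Finsupp.smul_single, smul_eq_mul, mul_one]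
    rw [h1, bd_single]
    unfold bs
    rw [Finset.sum_singleton, Finset.erase_singleton]
    have hs : sgn F {lo} lo = 1 := by
      unfold sgn
      have h4 : (({lo} : Finset (ι → ℤ)).filter (fun w => w < lo)) = ∅ := by
        rw [Finset.filter_eq_empty_iff]
        intro w hw
        rw [Finset.mem_singleton] at hw
        rw [hw]
        exact lt_irrefl _
      rw [h4]
      simp
    rw [hs, one_smul, Finsupp.smul_single, smul_eq_mul, mul_one]
    ext σ
    by_cases hσ : σ = ∅
    · rw [hσ, Finsupp.single_eq_same]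
    · rw [Finsupp.single_eq_of_ne hσ]
      by_contra h2
      have h3 := (mem_Sc.1 hz σ (Finsupp.mem_support_iff.2 (Ne.symm h2))).2
      exact hσ (Finset.card_eq_zero.1 h3)
  | succ j =>
    by_contra hcon
    push Not at hcon
    set U : Submodule F (Ch ι F) := (Sc F (Set.Icc lo hi) (j + 2)).map bd with hU
    have hzU : z ∉ U := by
      rintro ⟨w, hw, hwz⟩
      exact hcon w hw hwz
    obtain ⟨f, hf1, hf2⟩ := Submodule.exists_dual_map_eq_bot_of_notMem hzU inferInstance
    have hf3 : ∀ w ∈ Sc F (Set.Icc lo hi) (j + 2), f (bd w) = 0 := by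
      intro w hw
      have h1 : f (bd w) ∈ U.map f := Submodule.mem_map_of_mem (Submodule.mem_map_of_mem hw)
      rwa [hf2, Submodule.mem_bot] at h1
    -- the cochain
    set c : Co ι F := fun σ => if In (Set.Icc lo hi) σ ∧ σ.card = j + 1 then
      f (Finsupp.single σ 1) else 0 with hc
    have hcz : pa c z = f z := by
      have h1 : ∀ z' ∈ Sc F (Set.Icc lo hi) (j + 1), pa c z' = f z' := by
        intro z' hz'
        have h2 : z' = ∑ σ ∈ z'.support, z' σ • Finsupp.single σ (1 : F) := by
          conv_lhs => rw [← Finsupp.sum_single z']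
          unfold Finsupp.sum
          refine Finset.sum_congr rfl fun σ _ => ?_
          rw [Finsupp.smul_single, smul_eq_mul, mul_one]
        conv_rhs => rw [h2]
        rw [map_sum]
        unfold pa
        rw [Finsupp.linearCombination_apply, Finsupp.sum]
        refine Finset.sum_congr rfl fun σ hσ => ?_
        rw [map_smul, hc]
        simp only
        rw [if_pos (mem_Sc.1 hz' σ hσ)]
      exact h1 z hz
    have hdc : ∀ σ, In (Set.Icc lo hi) σ → σ.card = j + 2 → dd c σ = 0 := by
      intro σ hσ hσc
      rw [← pa_bs]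
      have h1 : bs F σ ∈ Sc F (Set.Icc lo hi) (j + 1) := bs_mem_Sc hσ hσc
      have h2 : ∀ z' ∈ Sc F (Set.Icc lo hi) (j + 1), pa c z' = f z' := by
        intro z' hz'
        have h2 : z' = ∑ σ ∈ z'.support, z' σ • Finsupp.single σ (1 : F) := by
          conv_lhs => rw [← Finsupp.sum_single z']
          unfold Finsupp.sum
          refine Finset.sum_congr rfl fun σ _ => ?_
          rw [Finsupp.smul_single, smul_eq_mul, mul_one]
        conv_rhs => rw [h2]
        rw [map_sum]
        unfold pa
        rw [Finsupp.linearCombination_apply, Finsupp.sum]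
        refine Finset.sum_congr rfl fun σ hσ => ?_
        rw [map_smul, hc]
        simp only
        rw [if_pos (mem_Sc.1 hz' σ hσ)]
      rw [h2 _ h1, ← bd_single]
      exact hf3 _ (single_mem_Sc hσ hσc 1)
    have hdc' : ∀ σ, In (Set.Icc lo hi) σ → dX (Set.Icc lo hi) c σ = 0 := by
      intro σ hσ
      rw [dX_apply, if_pos hσ]
      by_cases h1 : σ.card = j + 2
      · exact hdc σ hσ h1
      · refine Finset.sum_eq_zero fun v hv => ?_
        have h2 : ¬ (In (Set.Icc lo hi) (σ.erase v) ∧ (σ.erase v).card = j + 1) := by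
          rintro ⟨-, h3⟩
          rw [Finset.card_erase_of_mem hv] at h3
          have := Finset.card_pos.2 ⟨v, hv⟩
          omega
        rw [hc]
        simp only
        rw [if_neg h2, mul_zero]
    have hdX : dX (Set.Icc lo hi) c = 0 := by
      ext σ
      by_cases hσ : In (Set.Icc lo hi) σ
      · exact hdc' σ hσ
      · rw [dX_apply, if_neg hσ]
        rfl
    -- subtract a constant
    set y0 : Co ι F := fun τ => if τ = ∅ then c {lo} else 0 with hy0
    have hsgn : ∀ v : ι → ℤ, sgn F {v} v = 1 := by
      intro v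
      unfold sgn
      have h4 : (({v} : Finset (ι → ℤ)).filter (fun w => w < v)) = ∅ := by
        rw [Finset.filter_eq_empty_iff]
        intro w hw
        rw [Finset.mem_singleton] at hw
        rw [hw]
        exact lt_irrefl _
      rw [h4]
      simp
    have hy01 : ∀ σ : Finset (ι → ℤ), σ.card ≠ 1 → dd y0 σ = 0 := by
      intro σ hσ
      rw [dd_apply]
      refine Finset.sum_eq_zero fun v hv => ?_
      have h2 : σ.erase v ≠ ∅ := by
        intro h3
        have h4 := Finset.card_erase_of_mem hv
        rw [h3, Finset.card_empty] at h4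
        have := Finset.card_pos.2 ⟨v, hv⟩
        omega
      rw [hy0]
      simp only
      rw [if_neg h2, mul_zero]
    have hy02 : ∀ v : ι → ℤ, dd y0 {v} = c {lo} := by
      intro v
      rw [dd_apply, Finset.sum_singleton, Finset.erase_singleton, hsgn, one_mul, hy0]
      simp
    have hc0 : j ≠ 0 → c {lo} = 0 := by
      intro hj
      rw [hc]
      simp only
      rw [if_neg]
      rintro ⟨-, h1⟩
      rw [Finset.card_singleton] at h1
      omega
    set c' : Co ι F := c - dX (Set.Icc lo hi) y0 with hc'
    have hc'm : c' ∈ co (F := F) (⊥ : AddSubgroup (ι → ℤ)) (Set.Icc lo hi) {lo} (j + 1) := by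
      refine ⟨fun l hl σ => ?_, fun σ hσ => ?_⟩
      · rw [AddSubgroup.mem_bot] at hl
        rw [hl, Lev_tr_zero]
      · have hval : c' σ = c σ - dX (Set.Icc lo hi) y0 σ := rfl
        have hI : In (Set.Icc lo hi) σ := by
          by_contra h1
          apply hσ
          rw [hval, dX_apply, if_neg h1, sub_zero, hc]
          simp only
          rw [if_neg (fun h2 => h1 h2.1)]
        have hcard : σ.card = j + 1 := by
          by_contra h1
          have h2 : c σ = 0 := by
            rw [hc]
            simp only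
            rw [if_neg (fun h2 => h1 h2.2)]
          apply hσ
          rw [hval, h2, zero_sub, neg_eq_zero, dX_apply, if_pos hI]
          by_cases h3 : σ.card = 1
          · obtain ⟨v, rfl⟩ := Finset.card_eq_one.1 h3
            have h4 := hy02 v
            rw [dd_apply] at h4
            rw [h4]
            refine hc0 fun h5 => h1 ?_
            rw [h3, h5]
          · exact hy01 σ h3
        refine ⟨hI, fun h1 => ?_, hcard⟩
        have h2 : σ = {lo} := by
          refine Finset.eq_singleton_iff_nonempty_unique_mem.2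
            ⟨Finset.card_pos.1 (by omega), fun v hv => ?_⟩
          exact Set.mem_singleton_iff.1 (h1 v hv)
        apply hσ
        rw [hval, h2, dX_apply, if_pos hloI]
        have h4 := hy02 lo
        rw [dd_apply] at h4
        rw [h4, sub_self]
    have hdc'' : dX (Set.Icc lo hi) c' ∈ (⊥ : Submodule F (Co ι F)) := by
      rw [Submodule.mem_bot, hc', map_sub, dX_dX, hdX, sub_zero]
    obtain ⟨ℓ, hℓ⟩ := box_HR F h j
    obtain ⟨y, hy, hyc⟩ := hℓ c' hc'm hdc'' (Subsingleton.elim _ _)
    rw [Submodule.mem_bot, sub_eq_zero] at hyc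
    -- the pairing vanishes
    apply hf1
    rw [← hcz]
    have h1 : c = dX (Set.Icc lo hi) (y + y0) := by
      rw [map_add, ← hyc, hc']
      abel
    have h2 : pa c z = pa (dd (y + y0)) z := by
      refine pa_congr fun σ hσ => ?_
      conv_lhs => rw [h1]
      rw [dX_apply, if_pos (mem_Sc.1 hz σ hσ).1, dd_apply]
    rw [h2, ← pa_bd, hb, map_zero]

end Pool.Agent.H91.PSL
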