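import Pool.Agent.H91.PSL.Box
import Pool.Agent.H47.ST.ShiftD

/-!
# Phase slip lemma: chain maps and homotopies carried by boxes
-/

set_option autoImplicit false

namespace Pool.Agent.H91.PSL

open Pool.Agent.H47.ST

variable {ι : Type*} [Fintype ι] {F : Type*} [Field F]

/-- choice for the boxes with lowest corner `0` -/
noncomputable def sol0 (F : Type*) [Field F] (s : ι → ℤ) (j : ℕ) (z : Ch ι F) : Ch ι F :=
  open Classical in
  if h : ∃ w ∈ Sc F (Set.Icc 0 s) (j + 1), bd w = z then h.choose else 0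

/-- a chain with boundary `z` in the box -/
noncomputable def sol (F : Type*) [Field F] (lo hi : ι → ℤ) (j : ℕ) (z : Ch ι F) : Ch ι F :=
  tC lo (sol0 F (hi - lo) j (tC (-lo) z))

theorem sol_spec {lo hi : ι → ℤ} (h : lo ≤ hi) {j : ℕ} {z : Ch ι F}
    (hz : z ∈ Sc F (Set.Icc lo hi) j) (hb : bd z = 0) :
    sol F lo hi j z ∈ Sc F (Set.Icc lo hi) (j + 1) ∧ bd (sol F lo hi j z) = z := by
  classical
  have h1 : tC (-lo) z ∈ Sc F (Set.Icc 0 (hi - lo)) j := by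
    refine tC_mem (fun v hv => ?_) hz
    refine ⟨?_, ?_⟩
    · rw [← sub_eq_add_neg]
      exact sub_nonneg.2 hv.1
    · rw [← sub_eq_add_neg]
      exact sub_le_sub_right hv.2 lo
  have h2 : bd (tC (-lo) z) = 0 := by rw [← tC_bd, hb, map_zero]
  have h3 : ∃ w ∈ Sc F (Set.Icc 0 (hi - lo)) (j + 1), bd w = tC (-lo) z :=
    box_acyclic (sub_nonneg.2 h) h1 h2
  have h4 : sol F lo hi j z = tC lo h3.choose := by
    unfold sol sol0
    rw [dif_pos h3]
  obtain ⟨h5, h6⟩ := h3.choose_spec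
  rw [h4]
  refine ⟨tC_mem (fun v hv => ?_) h5, ?_⟩
  · refine ⟨?_, ?_⟩
    · exact le_add_of_nonneg_left hv.1
    · have := add_le_add_left hv.2 lo
      rw [sub_add_cancel] at this
      exact this
  · rw [← tC_bd, h6, tC_tC, neg_add_cancel, tC_zero]

theorem sol_tr (lo hi l : ι → ℤ) (j : ℕ) (z : Ch ι F) :
    sol F (lo + l) (hi + l) j (tC l z) = tC l (sol F lo hi j z) := by
  unfold sol
  rw [tC_tC, tC_tC, add_sub_add_right_eq_sub]
  have e : l + -(lo + l) = -lo := by abel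
  rw [e]

/-- the combinatorial differential of a family of chains -/
noncomputable def ddC (G : Finset (ι → ℤ) → Ch ι F) (σ : Finset (ι → ℤ)) : Ch ι F :=
  ∑ v ∈ σ, sgn F σ v • G (σ.erase v)

theorem ddC_apply (G : Finset (ι → ℤ) → Ch ι F) (σ τ : Finset (ι → ℤ)) :
    ddC G σ τ = dd (fun ρ => G ρ τ) σ := by
  unfold ddC
  rw [Finsupp.finset_sum_apply, dd_apply]
  rfl

theorem ddC_ddC (G : Finset (ι → ℤ) → Ch ι F) {σ : Finset (ι → ℤ)} (h : Simp σ) :
    ddC (ddC G) σ = 0 := by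
  ext τ
  rw [ddC_apply]
  have h1 : (fun ρ => ddC G ρ τ) = dd (fun ρ => G ρ τ) := by
    funext ρ
    exact ddC_apply G ρ τ
  rw [h1, dd_dd _ h]
  rfl

theorem pa_ddC (c : Co ι F) (G : Finset (ι → ℤ) → Ch ι F) (σ : Finset (ι → ℤ)) :
    pa c (ddC G σ) = ∑ v ∈ σ, sgn F σ v * pa c (G (σ.erase v)) := by
  unfold ddC
  rw [map_sum]
  refine Finset.sum_congr rfl fun v _ => ?_
  rw [map_smul, smul_eq_mul]

/-- recursion over the faces -/
noncomputable def Rc (lo hi : Finset (ι → ℤ) → (ι → ℤ)) (k : ℕ)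
    (ψ : Finset (ι → ℤ) → Ch ι F) (ε : F) (H0 : Ch ι F) (σ : Finset (ι → ℤ)) : Ch ι F :=
  open Classical in
  if σ = ∅ then H0 else
    sol F (lo σ) (hi σ) (σ.card - 1 + k)
      (ψ σ + ε • ∑ v ∈ σ.attach, sgn F σ v • Rc lo hi k ψ ε H0 (σ.erase v))
termination_by σ.card
decreasing_by exact Finset.card_erase_lt_of_mem v.2

section
variable {lo hi : Finset (ι → ℤ) → (ι → ℤ)} {k : ℕ} {ψ : Finset (ι → ℤ) → Ch ι F} {ε : F}
  {H0 : Ch ι F}

theorem Rc_empty : Rc lo hi k ψ ε H0 ∅ = H0 := by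
  rw [Rc, if_pos rfl]

theorem Rc_eq {σ : Finset (ι → ℤ)} (h : σ ≠ ∅) :
    Rc lo hi k ψ ε H0 σ = sol F (lo σ) (hi σ) (σ.card - 1 + k)
      (ψ σ + ε • ddC (Rc lo hi k ψ ε H0) σ) := by
  rw [Rc, if_neg h]
  unfold ddC
  rw [Finset.sum_attach σ fun v => sgn F σ v • Rc lo hi k ψ ε H0 (σ.erase v)]

theorem Rc_spec (hlh : ∀ σ : Finset (ι → ℤ), σ.Nonempty → lo σ ≤ hi σ)
    (hm : ∀ σ σ' : Finset (ι → ℤ), σ' ⊆ σ → σ'.Nonempty → lo σ ≤ lo σ' ∧ hi σ' ≤ hi σ)
    (hψ : ∀ σ, Simp σ → σ.Nonempty → ψ σ ∈ Sc F (Set.Icc (lo σ) (hi σ)) (σ.card - 1 + k))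
    (hψd : ∀ σ, Simp σ → bd (ψ σ) + ε • ddC ψ σ = 0)
    (hH : ∀ X : Set (ι → ℤ), H0 ∈ Sc F X k) (hH0 : bd H0 = ψ ∅) :
    ∀ (n : ℕ) (σ : Finset (ι → ℤ)), σ.card = n → Simp σ →
      (σ.Nonempty → Rc lo hi k ψ ε H0 σ ∈ Sc F (Set.Icc (lo σ) (hi σ)) (σ.card + k)) ∧
      bd (Rc lo hi k ψ ε H0 σ) = ψ σ + ε • ddC (Rc lo hi k ψ ε H0) σ := by
  intro n
  induction n with
  | zero =>
    intro σ hσ _
    rw [Finset.card_eq_zero] at hσ
    subst hσ
    refine ⟨fun h => absurd h Finset.not_nonempty_empty, ?_⟩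
    rw [Rc_empty, hH0]
    unfold ddC
    rw [Finset.sum_empty, smul_zero, add_zero]
  | succ n ih =>
    intro σ hσ hS
    have hne : σ.Nonempty := Finset.card_pos.1 (by omega)
    have h0 : σ ≠ ∅ := hne.ne_empty
    have hcard : σ.card - 1 = n := by omega
    have hface : ∀ v ∈ σ, (σ.erase v).card = n := fun v hv => by
      rw [Finset.card_erase_of_mem hv, hcard]
    have hfS : ∀ v, Simp (σ.erase v) := fun v => hS.mono (Finset.erase_subset v σ)
    have h1 : ψ σ + ε • ddC (Rc lo hi k ψ ε H0) σ ∈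
        Sc F (Set.Icc (lo σ) (hi σ)) (σ.card - 1 + k) := by
      refine Submodule.add_mem _ (hψ σ hS hne) (Submodule.smul_mem _ _ ?_)
      refine Submodule.sum_mem _ fun v hv => Submodule.smul_mem _ _ ?_
      rcases (σ.erase v).eq_empty_or_nonempty with h2 | h2
      · rw [h2, Rc_empty]
        have h3 := hface v hv
        rw [h2, Finset.card_empty] at h3
        have h4 : σ.card - 1 + k = k := by omega
        rw [h4]
        exact hH _
      · have h3 := (ih (σ.erase v) (hface v hv) (hfS v)).1 h2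
        rw [hface v hv] at h3
        rw [hcard]
        obtain ⟨h4, h5⟩ := hm σ (σ.erase v) (Finset.erase_subset v σ) h2
        exact Sc_mono (Set.Icc_subset_Icc h4 h5) _ h3
    have h2 : bd (ψ σ + ε • ddC (Rc lo hi k ψ ε H0) σ) = 0 := by
      rw [map_add, map_smul]
      have h3 : bd (ddC (Rc lo hi k ψ ε H0) σ) = ddC ψ σ +
          ε • ddC (ddC (Rc lo hi k ψ ε H0)) σ := by
        have h4 : bd (ddC (Rc lo hi k ψ ε H0) σ) =
            ∑ v ∈ σ, sgn F σ v • bd (Rc lo hi k ψ ε H0 (σ.erase v)) := by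
          unfold ddC
          rw [map_sum]
          exact Finset.sum_congr rfl fun v _ => map_smul _ _ _
        rw [h4]
        unfold ddC
        rw [Finset.smul_sum, ← Finset.sum_add_distrib]
        refine Finset.sum_congr rfl fun v hv => ?_
        rw [(ih (σ.erase v) (hface v hv) (hfS v)).2, smul_add]
        congr 1
        unfold ddC
        rw [smul_comm]
      rw [h3, ddC_ddC _ hS, smul_zero, add_zero]
      exact hψd σ hS
    obtain ⟨h3, h4⟩ := sol_spec (hlh σ hne) h1 h2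
    rw [← Rc_eq h0] at h3 h4
    refine ⟨fun _ => ?_, h4⟩
    have h5 : σ.card - 1 + k + 1 = σ.card + k := by omega
    rwa [h5] at h3

theorem Rc_tr {l : ι → ℤ} (hlo : ∀ σ : Finset (ι → ℤ), σ.Nonempty → lo (tr l σ) = lo σ + l)
    (hhi : ∀ σ : Finset (ι → ℤ), σ.Nonempty → hi (tr l σ) = hi σ + l)
    (hψ : ∀ σ, ψ (tr l σ) = tC l (ψ σ)) (hH : tC l H0 = H0) :
    ∀ (n : ℕ) (σ : Finset (ι → ℤ)), σ.card = n →
      Rc lo hi k ψ ε H0 (tr l σ) = tC l (Rc lo hi k ψ ε H0 σ) := by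
  intro n
  induction n with
  | zero =>
    intro σ hσ
    rw [Finset.card_eq_zero] at hσ
    subst hσ
    have h1 : tr l (∅ : Finset (ι → ℤ)) = ∅ := rfl
    rw [h1, Rc_empty, hH]
  | succ n ih =>
    intro σ hσ
    have hne : σ.Nonempty := Finset.card_pos.1 (by omega)
    have hc : (tr l σ).card = σ.card := Finset.card_map _
    have hne' : tr l σ ≠ ∅ := by
      intro h1
      rw [h1, Finset.card_empty] at hc
      omega
    rw [Rc_eq hne.ne_empty, Rc_eq hne', hc, hlo σ hne, hhi σ hne, ← sol_tr]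
    congr 1
    rw [map_add, map_smul, hψ]
    congr 2
    unfold ddC
    rw [map_sum]
    unfold tr
    rw [Finset.sum_map]
    refine Finset.sum_congr rfl fun v hv => ?_
    have h1 : (Equiv.addRight l).toEmbedding v = v + l := rfl
    rw [h1]
    have h2 : sgn F (σ.map (Equiv.addRight l).toEmbedding) (v + l) = sgn F σ v :=
      CellA_tr_sgn (F := F) (l := l) (σ := σ) v
    have h3 : (σ.map (Equiv.addRight l).toEmbedding).erase (v + l) = tr l (σ.erase v) :=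
      CellA_tr_erase (l := l) (σ := σ) v
    rw [h2, h3, map_smul, ih (σ.erase v) (by rw [Finset.card_erase_of_mem hv]; omega)]

end

/-! ### Hulls -/

/-- the lowest corner of the hull of the points `a v`, `v ∈ σ` -/
noncomputable def hlo (a : (ι → ℤ) → (ι → ℤ)) (σ : Finset (ι → ℤ)) : ι → ℤ := fun i =>
  open Classical in if h : σ.Nonempty then σ.inf' h (fun v => a v i) else 0

/-- the highest corner of the hull of the points `b v`, `v ∈ σ` -/
noncomputable def hhi (b : (ι → ℤ) → (ι → ℤ)) (σ : Finset (ι → ℤ)) : ι → ℤ := fun i =>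
  open Classical in if h : σ.Nonempty then σ.sup' h (fun v => b v i) else 0

section
variable {a b : (ι → ℤ) → (ι → ℤ)}

omit [Fintype ι] in
theorem hlo_le {σ : Finset (ι → ℤ)} {v : ι → ℤ} (hv : v ∈ σ) : hlo a σ ≤ a v := by
  intro i
  unfold hlo
  rw [dif_pos ⟨v, hv⟩]
  exact Finset.inf'_le _ hv

omit [Fintype ι] in
theorem le_hhi {σ : Finset (ι → ℤ)} {v : ι → ℤ} (hv : v ∈ σ) : b v ≤ hhi b σ := by
  intro i
  unfold hhi
  rw [dif_pos ⟨v, hv⟩]
  exact Finset.le_sup' (fun v => b v i) hv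

omit [Fintype ι] in
theorem hlo_att {σ : Finset (ι → ℤ)} (h : σ.Nonempty) (i : ι) : ∃ v ∈ σ, hlo a σ i = a v i := by
  unfold hlo
  rw [dif_pos h]
  obtain ⟨v, hv, h1⟩ := Finset.exists_mem_eq_inf' h fun v => a v i
  exact ⟨v, hv, h1⟩

omit [Fintype ι] in
theorem hhi_att {σ : Finset (ι → ℤ)} (h : σ.Nonempty) (i : ι) : ∃ v ∈ σ, hhi b σ i = b v i := by
  unfold hhi
  rw [dif_pos h]
  obtain ⟨v, hv, h1⟩ := Finset.exists_mem_eq_sup' h fun v => b v i
  exact ⟨v, hv, h1⟩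

omit [Fintype ι] in
theorem hlo_mono {σ σ' : Finset (ι → ℤ)} (h : σ' ⊆ σ) (hne : σ'.Nonempty) :
    hlo a σ ≤ hlo a σ' := by
  intro i
  obtain ⟨v, hv, h1⟩ := hlo_att (a := a) hne i
  rw [h1]
  exact hlo_le (h hv) i

omit [Fintype ι] in
theorem hhi_mono {σ σ' : Finset (ι → ℤ)} (h : σ' ⊆ σ) (hne : σ'.Nonempty) :
    hhi b σ' ≤ hhi b σ := by
  intro i
  obtain ⟨v, hv, h1⟩ := hhi_att (b := b) hne i
  rw [h1]
  exact le_hhi (h hv) i

omit [Fintype ι] in
theorem hlo_tr {l : ι → ℤ} (ha : ∀ v, a (v + l) = a v + l) {σ : Finset (ι → ℤ)}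
    (h : σ.Nonempty) : hlo a (tr l σ) = hlo a σ + l := by
  funext i
  have hne : (tr l σ).Nonempty := Finset.map_nonempty.2 h
  refine le_antisymm ?_ ?_
  · obtain ⟨v, hv, h1⟩ := hlo_att (a := a) h i
    have h2 := hlo_le (a := a) (σ := tr l σ) (v := v + l) (CellA_tr_mem.2 ⟨v, hv, rfl⟩) i
    rw [ha] at h2
    rw [Pi.add_apply, h1]
    exact h2
  · obtain ⟨w, hw, h1⟩ := hlo_att (a := a) hne i
    obtain ⟨v, hv, rfl⟩ := CellA_tr_mem.1 hw
    rw [h1, ha]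
    exact add_le_add_left (hlo_le hv i) _

omit [Fintype ι] in
theorem hhi_tr {l : ι → ℤ} (hb : ∀ v, b (v + l) = b v + l) {σ : Finset (ι → ℤ)}
    (h : σ.Nonempty) : hhi b (tr l σ) = hhi b σ + l := by
  funext i
  have hne : (tr l σ).Nonempty := Finset.map_nonempty.2 h
  refine le_antisymm ?_ ?_
  · obtain ⟨w, hw, h1⟩ := hhi_att (b := b) hne i
    obtain ⟨v, hv, rfl⟩ := CellA_tr_mem.1 hw
    rw [h1, hb]
    exact add_le_add_left (le_hhi hv i) _
  · obtain ⟨v, hv, h1⟩ := hhi_att (b := b) h i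
    have h2 := le_hhi (b := b) (σ := tr l σ) (v := v + l) (CellA_tr_mem.2 ⟨v, hv, rfl⟩) i
    rw [hb] at h2
    rw [Pi.add_apply, h1]
    exact h2

end

/-! ### Chain maps carried by hulls -/

/-- `φ` is an augmented chain map carried by the hulls of the vertex map `g` -/
structure Car (L : AddSubgroup (ι → ℤ)) (g : (ι → ℤ) → (ι → ℤ))
    (φ : Finset (ι → ℤ) → Ch ι F) : Prop where
  mem : ∀ σ, Simp σ → σ.Nonempty → φ σ ∈ Sc F (Set.Icc (hlo g σ) (hhi g σ)) σ.card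
  bdy : ∀ σ, Simp σ → bd (φ σ) = ddC φ σ
  emp : φ ∅ = Finsupp.single ∅ 1
  eqv : ∀ l ∈ L, ∀ σ, φ (tr l σ) = tC l (φ σ)

theorem empty_mem_Sc (X : Set (ι → ℤ)) : (Finsupp.single ∅ 1 : Ch ι F) ∈ Sc F X 0 :=
  single_mem_Sc ⟨fun v hv => absurd hv (Finset.notMem_empty v),
    fun v hv => absurd hv (Finset.notMem_empty v)⟩ rfl 1

theorem exists_car {L : AddSubgroup (ι → ℤ)} {g : (ι → ℤ) → (ι → ℤ)}
    (hg : ∀ l ∈ L, ∀ v, g (v + l) = g v + l) :
    ∃ φ : Finset (ι → ℤ) → Ch ι F, Car L g φ := by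
  have hsp := Rc_spec (F := F) (lo := hlo g) (hi := hhi g) (k := 0)
    (ψ := fun _ => 0) (ε := 1) (H0 := Finsupp.single ∅ 1)
    (fun σ hσ => by
      obtain ⟨v, hv⟩ := hσ
      exact (hlo_le hv).trans (le_hhi hv))
    (fun σ σ' h hne => ⟨hlo_mono h hne, hhi_mono h hne⟩)
    (fun σ _ _ => Submodule.zero_mem _)
    (fun σ _ => by
      unfold ddC
      simp)
    (fun X => empty_mem_Sc X)
    (by
      rw [bd_single]
      unfold bs
      rw [Finset.sum_empty])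
  refine ⟨Rc (hlo g) (hhi g) 0 (fun _ => 0) 1 (Finsupp.single ∅ 1), ?_, ?_, Rc_empty, ?_⟩
  · intro σ hS hne
    exact (hsp σ.card σ rfl hS).1 hne
  · intro σ hS
    have h1 := (hsp σ.card σ rfl hS).2
    rw [zero_add, one_smul] at h1
    exact h1
  · intro l hl σ
    refine Rc_tr (fun σ h => hlo_tr (hg l hl) h) (fun σ h => hhi_tr (hg l hl) h)
      (fun σ => by rw [map_zero]) ?_ σ.card σ rfl
    rw [tC_single]
    rfl

theorem car_id (L : AddSubgroup (ι → ℤ)) {g : (ι → ℤ) → (ι → ℤ)} (hg : ∀ v, g v = v) :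
    Car L g (fun σ => (Finsupp.single σ 1 : Ch ι F)) := by
  refine ⟨fun σ hS _ => single_mem_Sc ⟨hS, fun v hv => ?_⟩ rfl 1, fun σ _ => ?_, rfl,
    fun l _ σ => (tC_single l σ 1).symm⟩
  · have h1 := hlo_le (a := g) hv
    have h2 := le_hhi (b := g) hv
    rw [hg] at h1 h2
    exact ⟨h1, h2⟩
  · rw [bd_single]
    rfl

theorem pe_apply (π : Equiv.Perm ι) (v : ι → ℤ) : pe π v = v ∘ π := rfl

theorem pe_le (π : Equiv.Perm ι) (v w : ι → ℤ) : pe π v ≤ pe π w ↔ v ≤ w := by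
  constructor
  · intro h i
    have := h (π.symm i)
    simpa [pe_apply] using this
  · intro h i
    exact h (π i)

theorem pe_lt (π : Equiv.Perm ι) (v w : ι → ℤ) : pe π v < pe π w ↔ v < w := by
  rw [lt_iff_le_not_ge, lt_iff_le_not_ge, pe_le, pe_le]

theorem map_pe_mem {π : Equiv.Perm ι} {σ : Finset (ι → ℤ)} {w : ι → ℤ} :
    w ∈ σ.map (pe π).toEmbedding ↔ ∃ v ∈ σ, v ∘ π = w := Finset.mem_map

theorem map_pe_Simp {π : Equiv.Perm ι} {σ : Finset (ι → ℤ)} (h : Simp σ) :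
    Simp (σ.map (pe π).toEmbedding) := by
  intro v hv w hw
  obtain ⟨v', hv', rfl⟩ := map_pe_mem.1 hv
  obtain ⟨w', hw', rfl⟩ := map_pe_mem.1 hw
  rcases h v' hv' w' hw' with h1 | h1
  · exact Or.inl ⟨fun i => h1.1 (π i), fun i => h1.2 (π i)⟩
  · exact Or.inr ⟨fun i => h1.1 (π i), fun i => h1.2 (π i)⟩

theorem map_pe_sgn {π : Equiv.Perm ι} (σ : Finset (ι → ℤ)) (v : ι → ℤ) :
    sgn F (σ.map (pe π).toEmbedding) (pe π v) = sgn F σ v := by
  classical
  unfold sgn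
  congr 1
  have h1 : (σ.map (pe π).toEmbedding).filter (fun w => w < pe π v) =
      (σ.filter (fun w => w < v)).map (pe π).toEmbedding := by
    ext w
    rw [Finset.mem_filter, Finset.mem_map, Finset.mem_map]
    constructor
    · rintro ⟨⟨u, hu, rfl⟩, h⟩
      exact ⟨u, Finset.mem_filter.2 ⟨hu, (pe_lt π u v).1 h⟩, rfl⟩
    · rintro ⟨u, hu, rfl⟩
      rw [Finset.mem_filter] at hu
      exact ⟨⟨u, hu.1, rfl⟩, (pe_lt π u v).2 hu.2⟩
  have h2 : ((σ.map (pe π).toEmbedding).filter (fun w => w < pe π v)).card =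
      (σ.filter (fun w => w < v)).card := by
    rw [h1, Finset.card_map]
  exact h2

theorem map_pe_tr {π : Equiv.Perm ι} {l : ι → ℤ} (hl : l ∘ π = l) (σ : Finset (ι → ℤ)) :
    (tr l σ).map (pe π).toEmbedding = tr l (σ.map (pe π).toEmbedding) := by
  ext w
  constructor
  · intro hw
    obtain ⟨v, hv, rfl⟩ := map_pe_mem.1 hw
    obtain ⟨u, hu, rfl⟩ := CellA_tr_mem.1 hv
    refine CellA_tr_mem.2 ⟨u ∘ π, map_pe_mem.2 ⟨u, hu, rfl⟩, ?_⟩
    have : (u + l) ∘ π = u ∘ π + l ∘ π := rfl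
    rw [this, hl]
  · intro hw
    obtain ⟨v, hv, rfl⟩ := CellA_tr_mem.1 hw
    obtain ⟨u, hu, rfl⟩ := map_pe_mem.1 hv
    refine map_pe_mem.2 ⟨u + l, CellA_tr_mem.2 ⟨u, hu, rfl⟩, ?_⟩
    have : (u + l) ∘ π = u ∘ π + l ∘ π := rfl
    rw [this, hl]

theorem car_perm {L : AddSubgroup (ι → ℤ)} {g : (ι → ℤ) → (ι → ℤ)} {π : Equiv.Perm ι}
    (hg : ∀ v, g v = v ∘ π) (hL : ∀ l ∈ L, l ∘ π = l) :
    Car L g (fun σ => (Finsupp.single (σ.map (pe π).toEmbedding) 1 : Ch ι F)) := by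
  classical
  refine ⟨fun σ hS _ => single_mem_Sc ⟨map_pe_Simp hS, fun w hw => ?_⟩ (Finset.card_map _) 1,
    fun σ _ => ?_, by rw [Finset.map_empty], fun l hl σ => ?_⟩
  · obtain ⟨v, hv, rfl⟩ := map_pe_mem.1 hw
    have h1 := hlo_le (a := g) hv
    have h2 := le_hhi (b := g) hv
    rw [hg] at h1 h2
    exact ⟨h1, h2⟩
  · rw [bd_single]
    unfold bs ddC
    rw [Finset.sum_map]
    refine Finset.sum_congr rfl fun v _ => ?_
    have h1 : (pe π).toEmbedding v = pe π v := rfl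
    have h2 : (σ.map (pe π).toEmbedding).erase (pe π v) =
        (σ.erase v).map (pe π).toEmbedding := by
      rw [← h1, Finset.map_erase]
    rw [h1, map_pe_sgn, h2]
  · rw [map_pe_tr (hL l hl), tC_single]

/-- the homotopy between two carried chain maps -/
theorem exists_hom {L : AddSubgroup (ι → ℤ)} {g g' : (ι → ℤ) → (ι → ℤ)}
    (hg : ∀ l ∈ L, ∀ v, g (v + l) = g v + l) (hg' : ∀ l ∈ L, ∀ v, g' (v + l) = g' v + l)
    {φ φ' : Finset (ι → ℤ) → Ch ι F} (hφ : Car L g φ) (hφ' : Car L g' φ') :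
    ∃ H : Finset (ι → ℤ) → Ch ι F,
      (∀ σ, Simp σ → σ.Nonempty →
        H σ ∈ Sc F (Set.Icc (hlo (g ⊓ g') σ) (hhi (g ⊔ g') σ)) (σ.card + 1)) ∧
      H ∅ = 0 ∧ (∀ σ, Simp σ → bd (H σ) + ddC H σ = φ σ - φ' σ) ∧
      ∀ l ∈ L, ∀ σ, H (tr l σ) = tC l (H σ) := by
  have hsub : ∀ σ : Finset (ι → ℤ), σ.Nonempty →
      hlo (g ⊓ g') σ ≤ hlo g σ ∧ hhi g σ ≤ hhi (g ⊔ g') σ ∧
      hlo (g ⊓ g') σ ≤ hlo g' σ ∧ hhi g' σ ≤ hhi (g ⊔ g') σ := by
    intro σ hσ
    refine ⟨fun i => ?_, fun i => ?_, fun i => ?_, fun i => ?_⟩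
    · obtain ⟨v, hv, h1⟩ := hlo_att (a := g) hσ i
      rw [h1]
      exact (hlo_le hv i).trans (min_le_left _ _)
    · obtain ⟨v, hv, h1⟩ := hhi_att (b := g) hσ i
      rw [h1]
      exact (le_max_left _ _).trans (le_hhi (b := g ⊔ g') hv i)
    · obtain ⟨v, hv, h1⟩ := hlo_att (a := g') hσ i
      rw [h1]
      exact (hlo_le hv i).trans (min_le_right _ _)
    · obtain ⟨v, hv, h1⟩ := hhi_att (b := g') hσ i
      rw [h1]
      exact (le_max_right _ _).trans (le_hhi (b := g ⊔ g') hv i)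
  have hsp := Rc_spec (F := F) (lo := hlo (g ⊓ g')) (hi := hhi (g ⊔ g')) (k := 1)
    (ψ := fun σ => φ σ - φ' σ) (ε := -1) (H0 := 0)
    (fun σ hσ => by
      obtain ⟨h1, h2, -, -⟩ := hsub σ hσ
      obtain ⟨v, hv⟩ := hσ
      exact h1.trans (((hlo_le hv).trans (le_hhi hv)).trans h2))
    (fun σ σ' h hne => ⟨hlo_mono h hne, hhi_mono h hne⟩)
    (fun σ hS hne => by
      obtain ⟨h1, h2, h3, h4⟩ := hsub σ hne
      have h5 : σ.card - 1 + 1 = σ.card := Nat.sub_add_cancel (Finset.card_pos.2 hne)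
      rw [h5]
      exact Submodule.sub_mem _ (Sc_mono (Set.Icc_subset_Icc h1 h2) _ (hφ.mem σ hS hne))
        (Sc_mono (Set.Icc_subset_Icc h3 h4) _ (hφ'.mem σ hS hne)))
    (fun σ hS => by
      rw [map_sub, hφ.bdy σ hS, hφ'.bdy σ hS]
      have h1 : ddC (fun σ => φ σ - φ' σ) σ = ddC φ σ - ddC φ' σ := by
        unfold ddC
        rw [← Finset.sum_sub_distrib]
        exact Finset.sum_congr rfl fun v _ => smul_sub _ _ _
      rw [h1, neg_one_smul, add_neg_cancel])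
    (fun X => Submodule.zero_mem _)
    (by
      change bd 0 = φ ∅ - φ' ∅
      rw [hφ.emp, hφ'.emp, map_zero, sub_self])
  refine ⟨Rc (hlo (g ⊓ g')) (hhi (g ⊔ g')) 1 (fun σ => φ σ - φ' σ) (-1) 0, ?_, Rc_empty, ?_, ?_⟩
  · intro σ hS hne
    exact (hsp σ.card σ rfl hS).1 hne
  · intro σ hS
    rw [(hsp σ.card σ rfl hS).2, neg_one_smul, neg_add_cancel_right]
  · intro l hl σ
    refine Rc_tr (fun σ h => hlo_tr (fun v => ?_) h) (fun σ h => hhi_tr (fun v => ?_) h)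
      (fun σ => ?_) (map_zero _) σ.card σ rfl
    · funext i
      change min (g (v + l) i) (g' (v + l) i) = min (g v i) (g' v i) + l i
      rw [hg l hl, hg' l hl]
      exact min_add_add_right _ _ _
    · funext i
      change max (g (v + l) i) (g' (v + l) i) = max (g v i) (g' v i) + l i
      rw [hg l hl, hg' l hl]
      exact max_add_add_right _ _ _
    · rw [hφ.eqv l hl, hφ'.eqv l hl, map_sub]

end Pool.Agent.H91.PSL
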