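import Pool.Agent.H47.ST.Fine

/-!
# Phase slip lemma: chains of the Kuhn triangulation
-/

set_option autoImplicit false

namespace Pool.Agent.H91.PSL

open Pool.Agent.H47.ST

variable {ι : Type*} [Fintype ι] {F : Type*} [Field F]

/-- chains -/
abbrev Ch (ι F : Type*) [Field F] := Finset (ι → ℤ) →₀ F

/-- the boundary of a simplex -/
noncomputable def bs (F : Type*) [Field F] (σ : Finset (ι → ℤ)) : Ch ι F :=
  ∑ v ∈ σ, sgn F σ v • Finsupp.single (σ.erase v) 1

/-- the boundary -/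
noncomputable def bd : Ch ι F →ₗ[F] Ch ι F := Finsupp.linearCombination F (bs F)

/-- the pairing -/
noncomputable def pa (c : Co ι F) : Ch ι F →ₗ[F] F := Finsupp.linearCombination F c

theorem pa_single (c : Co ι F) (σ : Finset (ι → ℤ)) (a : F) :
    pa c (Finsupp.single σ a) = a * c σ := by
  unfold pa
  rw [Finsupp.linearCombination_single, smul_eq_mul]

theorem bd_single (σ : Finset (ι → ℤ)) : bd (Finsupp.single σ (1 : F)) = bs F σ := by
  unfold bd
  rw [Finsupp.linearCombination_single, one_smul]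

theorem pa_bs (c : Co ι F) (σ : Finset (ι → ℤ)) : pa c (bs F σ) = dd c σ := by
  unfold bs
  rw [map_sum, dd_apply]
  refine Finset.sum_congr rfl fun v _ => ?_
  rw [map_smul, pa_single, one_mul, smul_eq_mul]

theorem pa_bd (c : Co ι F) (z : Ch ι F) : pa c (bd z) = pa (dd c) z := by
  have h : (pa c).comp bd = pa (dd c) := by
    refine Finsupp.lhom_ext' fun σ => LinearMap.ext_ring ?_
    change pa c (bd (Finsupp.single σ 1)) = pa (dd c) (Finsupp.single σ 1)
    rw [bd_single, pa_bs, pa_single, one_mul]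
  exact LinearMap.congr_fun h z

theorem pa_congr {c c' : Co ι F} {z : Ch ι F} (h : ∀ σ ∈ z.support, c σ = c' σ) :
    pa c z = pa c' z := by
  unfold pa
  rw [Finsupp.linearCombination_apply, Finsupp.linearCombination_apply]
  exact Finsupp.sum_congr fun σ hσ => by rw [h σ hσ]

theorem pa_zero {c : Co ι F} {z : Ch ι F} (h : ∀ σ ∈ z.support, c σ = 0) : pa c z = 0 := by
  have h1 : pa c z = pa (0 : Co ι F) z := pa_congr h
  rw [h1]
  unfold pa
  rw [Finsupp.linearCombination_apply]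
  exact Finset.sum_eq_zero fun σ _ => by simp

theorem pa_delta (τ : Finset (ι → ℤ)) (z : Ch ι F) :
    pa (fun σ => open Classical in if σ = τ then (1 : F) else 0) z = z τ := by
  classical
  unfold pa
  rw [Finsupp.linearCombination_apply, Finsupp.sum]
  by_cases h : τ ∈ z.support
  · rw [Finset.sum_eq_single τ]
    · simp
    · intro σ _ hne
      simp [hne]
    · intro h'
      exact absurd h h'
  · rw [Finsupp.notMem_support_iff.1 h]
    refine Finset.sum_eq_zero fun σ hσ => ?_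
    have hne : σ ≠ τ := fun e => h (by rw [← e]; exact hσ)
    simp [hne]

theorem ch_ext {z z' : Ch ι F} (h : ∀ c : Co ι F, pa c z = pa c z') : z = z' := by
  ext τ
  rw [← pa_delta τ z, ← pa_delta τ z']
  exact h _

theorem dd_dd (c : Co ι F) {σ : Finset (ι → ℤ)} (h : Simp σ) : dd (dd c) σ = 0 := by
  classical
  have h1 : dX (Set.univ) (dX (Set.univ) c) σ = 0 := by rw [dX_dX]; rfl
  have hI : ∀ τ : Finset (ι → ℤ), Simp τ → In Set.univ τ := fun τ hτ =>
    ⟨hτ, fun _ _ => Set.mem_univ _⟩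
  rw [dX_apply, if_pos (hI σ h)] at h1
  rw [dd_apply, ← h1]
  refine Finset.sum_congr rfl fun v _ => ?_
  rw [dX_apply, if_pos (hI _ (h.mono (Finset.erase_subset v σ))), dd_apply]

theorem bd_bs {σ : Finset (ι → ℤ)} (h : Simp σ) : bd (bs F σ) = 0 := by
  refine ch_ext fun c => ?_
  rw [pa_bd, pa_bs, dd_dd c h, map_zero]

/-- chains on the simplices with `j` vertices in a set -/
def Sc (F : Type*) [Field F] (X : Set (ι → ℤ)) (j : ℕ) : Submodule F (Ch ι F) :=
  Finsupp.supported F F {σ | In X σ ∧ σ.card = j}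

theorem mem_Sc {X : Set (ι → ℤ)} {j : ℕ} {z : Ch ι F} :
    z ∈ Sc F X j ↔ ∀ σ ∈ z.support, In X σ ∧ σ.card = j := by
  unfold Sc
  rw [Finsupp.mem_supported]
  rfl

theorem single_mem_Sc {X : Set (ι → ℤ)} {j : ℕ} {σ : Finset (ι → ℤ)} (h : In X σ)
    (hj : σ.card = j) (a : F) : Finsupp.single σ a ∈ Sc F X j :=
  Finsupp.single_mem_supported F a ⟨h, hj⟩

theorem Sc_mono {X Y : Set (ι → ℤ)} (h : X ⊆ Y) (j : ℕ) : Sc F X j ≤ Sc F Y j :=
  Finsupp.supported_mono fun _ hσ => ⟨⟨hσ.1.1, fun v hv => h (hσ.1.2 v hv)⟩, hσ.2⟩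

theorem bs_mem_Sc {X : Set (ι → ℤ)} {j : ℕ} {σ : Finset (ι → ℤ)} (h : In X σ)
    (hj : σ.card = j + 1) : bs F σ ∈ Sc F X j := by
  unfold bs
  refine Submodule.sum_mem _ fun v hv => Submodule.smul_mem _ _ ?_
  refine single_mem_Sc (CellA_In_erase h v) ?_ 1
  rw [Finset.card_erase_of_mem hv, hj]
  rfl

theorem bd_mem_Sc {X : Set (ι → ℤ)} {j : ℕ} {z : Ch ι F} (h : z ∈ Sc F X (j + 1)) :
    bd z ∈ Sc F X j := by
  unfold bd
  rw [Finsupp.linearCombination_apply, Finsupp.sum]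
  refine Submodule.sum_mem _ fun σ hσ => Submodule.smul_mem _ _ ?_
  obtain ⟨h1, h2⟩ := mem_Sc.1 h σ hσ
  exact bs_mem_Sc h1 h2

theorem bd_bd {X : Set (ι → ℤ)} {j : ℕ} {z : Ch ι F} (h : z ∈ Sc F X j) : bd (bd z) = 0 := by
  refine ch_ext fun c => ?_
  rw [pa_bd, pa_bd, map_zero]
  exact pa_zero fun σ hσ => dd_dd c (mem_Sc.1 h σ hσ).1.1

/-- translation of chains -/
noncomputable def tC (l : ι → ℤ) : Ch ι F →ₗ[F] Ch ι F := Finsupp.lmapDomain F F (tr l)

theorem tC_single (l : ι → ℤ) (σ : Finset (ι → ℤ)) (a : F) :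
    tC l (Finsupp.single σ a) = Finsupp.single (tr l σ) a := by
  unfold tC
  rw [Finsupp.lmapDomain_apply, Finsupp.mapDomain_single]

theorem tC_tC (a b : ι → ℤ) (z : Ch ι F) : tC a (tC b z) = tC (b + a) z := by
  have h : (tC a : Ch ι F →ₗ[F] Ch ι F).comp (tC b) = tC (b + a) := by
    refine Finsupp.lhom_ext' fun σ => LinearMap.ext_ring ?_
    change tC a (tC b (Finsupp.single σ 1)) = tC (b + a) (Finsupp.single σ 1)
    rw [tC_single, tC_single, tC_single, Lev_tr_tr]
  exact LinearMap.congr_fun h z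

theorem tC_zero (z : Ch ι F) : tC 0 z = z := by
  have h : (tC 0 : Ch ι F →ₗ[F] Ch ι F) = LinearMap.id := by
    refine Finsupp.lhom_ext' fun σ => LinearMap.ext_ring ?_
    change tC 0 (Finsupp.single σ 1) = Finsupp.single σ 1
    rw [tC_single, Lev_tr_zero]
  exact LinearMap.congr_fun h z

theorem tC_bs (l : ι → ℤ) (σ : Finset (ι → ℤ)) : tC l (bs F σ) = bs F (tr l σ) := by
  unfold bs
  rw [map_sum]
  unfold tr
  rw [Finset.sum_map]
  refine Finset.sum_congr rfl fun v _ => ?_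
  rw [map_smul, tC_single]
  have h1 : (Equiv.addRight l).toEmbedding v = v + l := rfl
  rw [h1]
  have h2 : sgn F (σ.map (Equiv.addRight l).toEmbedding) (v + l) = sgn F σ v :=
    CellA_tr_sgn (F := F) (l := l) (σ := σ) v
  have h3 : (σ.map (Equiv.addRight l).toEmbedding).erase (v + l) = tr l (σ.erase v) :=
    CellA_tr_erase (l := l) (σ := σ) v
  rw [h2, h3]

theorem tC_bd (l : ι → ℤ) (z : Ch ι F) : tC l (bd z) = bd (tC l z) := by
  have h : (tC l : Ch ι F →ₗ[F] Ch ι F).comp bd = bd.comp (tC l) := by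
    refine Finsupp.lhom_ext' fun σ => LinearMap.ext_ring ?_
    change tC l (bd (Finsupp.single σ 1)) = bd (tC l (Finsupp.single σ 1))
    rw [bd_single, tC_single, bd_single, tC_bs]
  exact LinearMap.congr_fun h z

theorem tC_mem {X Y : Set (ι → ℤ)} {l : ι → ℤ} (h : ∀ v ∈ X, v + l ∈ Y) {j : ℕ} {z : Ch ι F}
    (hz : z ∈ Sc F X j) : tC l z ∈ Sc F Y j := by
  unfold tC
  rw [Finsupp.lmapDomain_apply, Finsupp.mapDomain, Finsupp.sum]
  refine Submodule.sum_mem _ fun σ hσ => ?_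
  obtain ⟨h1, h2⟩ := mem_Sc.1 hz σ hσ
  refine single_mem_Sc ⟨CellA_tr_Simp.2 h1.1, fun w hw => ?_⟩ ?_ _
  · obtain ⟨v, hv, rfl⟩ := CellA_tr_mem.1 hw
    exact h v (h1.2 v hv)
  · unfold tr
    rw [Finset.card_map, h2]

theorem pa_tC {c : Co ι F} {l : ι → ℤ} (h : ∀ σ, c (tr l σ) = c σ) (z : Ch ι F) :
    pa c (tC l z) = pa c z := by
  have h1 : (pa c).comp (tC l) = pa c := by
    refine Finsupp.lhom_ext' fun σ => LinearMap.ext_ring ?_
    change pa c (tC l (Finsupp.single σ 1)) = pa c (Finsupp.single σ 1)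
    rw [tC_single, pa_single, pa_single, h]
  exact LinearMap.congr_fun h1 z

end Pool.Agent.H91.PSL
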