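import Pool.Agent.H91.PSL.Car

/-!
# Phase slip lemma: the transfer lemma on one grid
-/

set_option autoImplicit false

namespace Pool.Agent.H91.PSL

open Pool.Agent.H47.ST

variable {ι : Type*} [Fintype ι] {F : Type*} [Field F]

/-- the cochain operator of a family of chains -/
noncomputable def pull (P : Finset (ι → ℤ) → Prop) (φ : Finset (ι → ℤ) → Ch ι F) (c : Co ι F) :
    Co ι F :=
  open Classical in fun σ => if P σ then pa c (φ σ) else 0

/-- simplices in `X`, not in `A` -/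
def Pl (X A : Set (ι → ℤ)) (σ : Finset (ι → ℤ)) : Prop := In X σ ∧ ¬ ∀ v ∈ σ, v ∈ A

omit [Fintype ι] in
theorem Pl_tr {L : AddSubgroup (ι → ℤ)} {X A : Set (ι → ℤ)} (hX : Inv L X) (hA : Inv L A)
    {l : ι → ℤ} (hl : l ∈ L) (σ : Finset (ι → ℤ)) : Pl X A (tr l σ) ↔ Pl X A σ := by
  unfold Pl
  rw [CellA_tr_In hX hl]
  refine and_congr_right fun _ => not_congr ⟨fun h v hv => ?_, fun h w hw => ?_⟩
  · exact (hA l hl v).2 (h _ (CellA_tr_mem.2 ⟨v, hv, rfl⟩))
  · obtain ⟨v, hv, rfl⟩ := CellA_tr_mem.1 hw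
    exact (hA l hl v).1 (h v hv)

/-- one step -/
theorem pull_step {L : AddSubgroup (ι → ℤ)} {X X₁ A A' : Set (ι → ℤ)} (hX : Inv L X)
    (hA' : Inv L A') {g g' : (ι → ℤ) → (ι → ℤ)} {φ φ' H : Finset (ι → ℤ) → Ch ι F}
    (hH1 : ∀ σ, Simp σ → σ.Nonempty →
      H σ ∈ Sc F (Set.Icc (hlo (g ⊓ g') σ) (hhi (g ⊔ g') σ)) (σ.card + 1))
    (hH0 : H ∅ = 0) (hH2 : ∀ σ, Simp σ → bd (H σ) + ddC H σ = φ σ - φ' σ)
    (hH3 : ∀ l ∈ L, ∀ σ, H (tr l σ) = tC l (H σ))
    (hin : ∀ σ, Pl X A' σ → ∀ w ∈ Set.Icc (hlo (g ⊓ g') σ) (hhi (g ⊔ g') σ), w ∈ X₁)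
    (hlow : ∀ σ σ', Pl X A' σ → σ' ⊆ σ → σ'.Nonempty → (∀ v ∈ σ', v ∈ A') →
      ∀ w ∈ Set.Icc (hlo (g ⊓ g') σ') (hhi (g ⊔ g') σ'), w ∈ A)
    (p : ℕ) {x : Co ι F} (hx : x ∈ co (F := F) L X₁ A (p + 1)) (hd : dX X₁ x = 0) :
    pull (Pl X A') H x ∈ co (F := F) L X A' p ∧
      pull (Pl X A') φ x - pull (Pl X A') φ' x = dX X (pull (Pl X A') H x) := by
  classical
  obtain ⟨hx1, hx2⟩ := id hx
  constructor
  · refine ⟨fun l hl σ => ?_, fun σ hσ => ?_⟩
    · unfold pull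
      by_cases h : Pl X A' σ
      · rw [if_pos h, if_pos ((Pl_tr hX hA' hl σ).2 h), hH3 l hl, pa_tC (hx1 l hl)]
      · rw [if_neg h, if_neg fun h' => h ((Pl_tr hX hA' hl σ).1 h')]
    · unfold pull at hσ
      by_cases h : Pl X A' σ
      swap
      · rw [if_neg h] at hσ
        exact absurd rfl hσ
      rw [if_pos h] at hσ
      refine ⟨h.1, h.2, ?_⟩
      have hne : σ.Nonempty := by
        rw [Finset.nonempty_iff_ne_empty]
        rintro rfl
        exact h.2 fun v hv => absurd hv (Finset.notMem_empty v)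
      by_contra hc
      apply hσ
      refine pa_zero fun τ hτ => ?_
      by_contra h1
      have h2 := (hx2 τ h1).2.2
      have h3 := (mem_Sc.1 (hH1 σ h.1.1 hne) τ hτ).2
      exact hc (by omega)
  · ext σ
    have e1 : (pull (Pl X A') φ x - pull (Pl X A') φ' x) σ =
        pull (Pl X A') φ x σ - pull (Pl X A') φ' x σ := rfl
    rw [e1, dX_apply]
    by_cases hI : In X σ
    swap
    · rw [if_neg hI]
      unfold pull
      rw [if_neg fun h => hI h.1, if_neg fun h => hI h.1, sub_zero]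
    rw [if_pos hI]
    by_cases hP : Pl X A' σ
    swap
    · -- the simplex lies in `A'`
      have hall : ∀ v ∈ σ, v ∈ A' := by
        by_contra h
        exact hP ⟨hI, h⟩
      unfold pull
      rw [if_neg hP, if_neg hP, sub_zero]
      symm
      refine Finset.sum_eq_zero fun v _ => ?_
      rw [if_neg, mul_zero]
      intro h
      exact h.2 fun u hu => hall u (Finset.mem_of_mem_erase hu)
    have hne : σ.Nonempty := by
      rw [Finset.nonempty_iff_ne_empty]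
      rintro rfl
      exact hP.2 fun v hv => absurd hv (Finset.notMem_empty v)
    have h1 : ∑ v ∈ σ, sgn F σ v * pull (Pl X A') H x (σ.erase v) = pa x (ddC H σ) := by
      rw [pa_ddC]
      refine Finset.sum_congr rfl fun v hv => ?_
      congr 1
      unfold pull
      by_cases hf : Pl X A' (σ.erase v)
      · rw [if_pos hf]
      · rw [if_neg hf]
        have hall : ∀ u ∈ σ.erase v, u ∈ A' := by
          by_contra h
          exact hf ⟨CellA_In_erase hI v, h⟩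
        rcases (σ.erase v).eq_empty_or_nonempty with h2 | h2
        · rw [h2, hH0, map_zero]
        · symm
          refine pa_zero fun τ hτ => ?_
          by_contra h3
          refine (hx2 τ h3).2.1 fun w hw => ?_
          exact hlow σ (σ.erase v) hP (Finset.erase_subset v σ) h2 hall w
            ((mem_Sc.1 (hH1 _ (CellA_In_erase hI v).1 h2) τ hτ).1.2 w hw)
    have h2 : pa x (bd (H σ)) = 0 := by
      rw [pa_bd]
      refine pa_zero fun τ hτ => ?_
      have h3 := (mem_Sc.1 (hH1 σ hI.1 hne) τ hτ).1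
      have h4 : In X₁ τ := ⟨h3.1, fun w hw => hin σ hP w (h3.2 w hw)⟩
      have h5 : dX X₁ x τ = 0 := by rw [hd]; rfl
      rw [dX_apply, if_pos h4] at h5
      rw [dd_apply]
      exact h5
    rw [h1]
    unfold pull
    rw [if_pos hP, if_pos hP, ← map_sub, ← hH2 σ hI.1, map_add, h2, zero_add]

/-- **Transfer lemma.** -/
theorem slip_grid {L : AddSubgroup (ι → ℤ)} {X X₁ A A' : Set (ι → ℤ)} (hX : Inv L X)
    (hA' : Inv L A') (hAA : A' ⊆ A)
    (π : Equiv.Perm ι) (hπA : PInv π A')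
    (g : ℕ → (ι → ℤ) → (ι → ℤ)) (r : ℕ) (κ : ℤ) (h0 : ∀ v, g 0 v = v)
    (hr : ∀ v, g r v = v ∘ π) (hL : ∀ i, ∀ l ∈ L, ∀ v, g i (v + l) = g i v + l)
    (hadj : ∀ i ≤ r, ∀ v w, (v ∈ X ∧ ∃ u ∈ X, u ∉ A' ∧ Adj v u) →
      (w ∈ X ∧ ∃ u ∈ X, u ∉ A' ∧ Adj w u) → Adj v w → ∀ i', |g i w i' - g i v i'| ≤ κ)
    (hstep : ∀ i < r, ∀ v, (v ∈ X ∧ ∃ u ∈ X, u ∉ A' ∧ Adj v u) →
      ∀ i', |g (i + 1) v i' - g i v i'| ≤ κ)
    (hin : ∀ i ≤ r, ∀ v w, (v ∈ X ∧ ∃ u ∈ X, u ∉ A' ∧ Adj v u) →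
      (∀ i', |w i' - g i v i'| ≤ 2 * κ) → w ∈ X₁)
    (hlow : ∀ i ≤ r, ∀ v w, (v ∈ X ∧ ∃ u ∈ X, u ∉ A' ∧ Adj v u) → v ∈ A' →
      (∀ i', |w i' - g i v i'| ≤ 2 * κ) → w ∈ A)
    (p : ℕ) {x : Co ι F} (hx : x ∈ co (F := F) L X₁ A (p + 1)) (hd : dX X₁ x = 0) :
    ∃ y ∈ co (F := F) L X A' p, cut (In X) (ta F π x) = dX X y := by
  classical
  have hπL : ∀ l ∈ L, l ∘ π = l := by
    intro l hl
    have h1 := hL r l hl 0
    rw [hr, hr] at h1
    funext i
    have h2 := congrFun h1 i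
    simpa using h2
  -- the chain maps
  have hex : ∀ i, ∃ φ : Finset (ι → ℤ) → Ch ι F, Car L (g i) φ := fun i => exists_car (hL i)
  choose φ₀ hφ₀ using hex
  by_cases hr0 : r = 0
  · -- the permutation acts trivially
    refine ⟨0, Submodule.zero_mem _, ?_⟩
    have hv : ∀ v : ι → ℤ, v ∘ π = v := fun v => by
      rw [← hr v, hr0, h0]
    have hm : ∀ σ : Finset (ι → ℤ), σ.map (pe π).toEmbedding = σ := by
      intro σ
      ext w
      constructor
      · intro hw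
        obtain ⟨v, hv', rfl⟩ := map_pe_mem.1 hw
        rwa [hv]
      · intro hw
        exact map_pe_mem.2 ⟨w, hw, hv w⟩
    have h1 : ta F π x = 0 := by
      unfold ta
      rw [LinearMap.sub_apply, LinearMap.id_apply, sub_eq_zero]
      funext σ
      change x (σ.map (pe π).toEmbedding) = x σ
      rw [hm]
    rw [h1, map_zero, map_zero]
  set φ : ℕ → Finset (ι → ℤ) → Ch ι F := fun i =>
    if i = 0 then (fun σ => Finsupp.single σ 1) else
    if i = r then (fun σ => Finsupp.single (σ.map (pe π).toEmbedding) 1) else φ₀ i with hφdef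
  have hφ0 : φ 0 = fun σ => Finsupp.single σ 1 := if_pos rfl
  have hφr : φ r = fun σ => Finsupp.single (σ.map (pe π).toEmbedding) 1 :=
    (if_neg hr0).trans (if_pos rfl)
  have hφ : ∀ i, Car L (g i) (φ i) := by
    intro i
    by_cases h1 : i = 0
    · rw [h1, hφ0]
      exact car_id L h0
    by_cases h2 : i = r
    · rw [h2, hφr]
      exact car_perm hr hπL
    have h3 : φ i = φ₀ i := (if_neg h1).trans (if_neg h2)
    rw [h3]
    exact hφ₀ i
  have hH : ∀ i, ∃ H : Finset (ι → ℤ) → Ch ι F,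
      (∀ σ, Simp σ → σ.Nonempty →
        H σ ∈ Sc F (Set.Icc (hlo (g i ⊓ g (i + 1)) σ) (hhi (g i ⊔ g (i + 1)) σ)) (σ.card + 1)) ∧
      H ∅ = 0 ∧ (∀ σ, Simp σ → bd (H σ) + ddC H σ = φ i σ - φ (i + 1) σ) ∧
      ∀ l ∈ L, ∀ σ, H (tr l σ) = tC l (H σ) := fun i =>
    exists_hom (hL i) (hL (i + 1)) (hφ i) (hφ (i + 1))
  choose H hH1 hH0 hH2 hH3 using hH
  -- distances
  have hlive : ∀ σ, Pl X A' σ → ∀ v ∈ σ, v ∈ X ∧ ∃ u ∈ X, u ∉ A' ∧ Adj v u := by
    rintro σ ⟨hI, hn⟩ v hv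
    push Not at hn
    obtain ⟨u, hu, huA⟩ := hn
    exact ⟨hI.2 v hv, u, hI.2 u hu, huA, hI.1 v hv u hu⟩
  have hdist : ∀ i < r, ∀ σ, Pl X A' σ → ∀ σ' ⊆ σ, ∀ v ∈ σ',
      ∀ w ∈ Set.Icc (hlo (g i ⊓ g (i + 1)) σ') (hhi (g i ⊔ g (i + 1)) σ'),
        ∀ i', |w i' - g i v i'| ≤ 2 * κ := by
    intro i hi σ hσ σ' hσ' v hv w hw i'
    have hne : σ'.Nonempty := ⟨v, hv⟩
    have hlv := hlive σ hσ v (hσ' hv)
    have hκ0 : 0 ≤ κ := (abs_nonneg _).trans (hadj i hi.le v v hlv hlv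
      (Or.inl ⟨le_rfl, fun k => by simp⟩) i')
    have key : ∀ u ∈ σ', |g i u i' - g i v i'| ≤ κ ∧ |g (i + 1) u i' - g i v i'| ≤ 2 * κ := by
      intro u hu
      have hlu := hlive σ hσ u (hσ' hu)
      have h1 := hadj i hi.le v u hlv hlu (hσ.1.1 v (hσ' hv) u (hσ' hu)) i'
      have h2 := hstep i hi u hlu i'
      refine ⟨h1, ?_⟩
      have h3 : g (i + 1) u i' - g i v i' =
          (g (i + 1) u i' - g i u i') + (g i u i' - g i v i') := by ring
      rw [h3]
      exact (abs_add_le _ _).trans (by linarith)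
    obtain ⟨u1, hu1, e1⟩ := hlo_att (a := g i ⊓ g (i + 1)) hne i'
    obtain ⟨u2, hu2, e2⟩ := hhi_att (b := g i ⊔ g (i + 1)) hne i'
    have h1 := hw.1 i'
    have h2 := hw.2 i'
    rw [e1] at h1
    rw [e2] at h2
    obtain ⟨k1, k2⟩ := key u1 hu1
    obtain ⟨k3, k4⟩ := key u2 hu2
    rw [abs_le] at k1 k2 k3 k4 ⊢
    constructor
    · rcases min_choice (g i u1 i') (g (i + 1) u1 i') with h3 | h3
      · have h4 : (g i ⊓ g (i + 1)) u1 i' = g i u1 i' := h3
        rw [h4] at h1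
        linarith
      · have h4 : (g i ⊓ g (i + 1)) u1 i' = g (i + 1) u1 i' := h3
        rw [h4] at h1
        linarith
    · rcases max_choice (g i u2 i') (g (i + 1) u2 i') with h3 | h3
      · have h4 : (g i ⊔ g (i + 1)) u2 i' = g i u2 i' := h3
        rw [h4] at h2
        linarith
      · have h4 : (g i ⊔ g (i + 1)) u2 i' = g (i + 1) u2 i' := h3
        rw [h4] at h2
        linarith
  -- the steps
  have hst : ∀ i < r, pull (Pl X A') (H i) x ∈ co (F := F) L X A' p ∧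
      pull (Pl X A') (φ i) x - pull (Pl X A') (φ (i + 1)) x =
        dX X (pull (Pl X A') (H i) x) := by
    intro i hi
    refine pull_step hX hA' (hH1 i) (hH0 i) (hH2 i) (hH3 i) ?_ ?_ p hx hd
    · intro σ hσ w hw
      have hne : σ.Nonempty := by
        rw [Finset.nonempty_iff_ne_empty]
        rintro rfl
        exact hσ.2 fun v hv => absurd hv (Finset.notMem_empty v)
      obtain ⟨v, hv⟩ := hne
      exact hin i hi.le v w (hlive σ hσ v hv)
        (hdist i hi σ hσ σ (Finset.Subset.refl σ) v hv w hw)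
    · intro σ σ' hσ hσ' hne hall w hw
      obtain ⟨v, hv⟩ := hne
      exact hlow i hi.le v w (hlive σ hσ v (hσ' hv)) (hall v hv)
        (hdist i hi σ hσ σ' hσ' v hv w hw)
  have hsum : ∀ k ≤ r, pull (Pl X A') (φ 0) x - pull (Pl X A') (φ k) x =
      dX X (∑ i ∈ Finset.range k, pull (Pl X A') (H i) x) := by
    intro k
    induction k with
    | zero =>
      intro _
      rw [Finset.sum_range_zero, map_zero, sub_self]
    | succ k ih =>
      intro hk
      rw [Finset.sum_range_succ, map_add, ← ih (by omega), ← (hst k (by omega)).2]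
      abel
  refine ⟨-∑ i ∈ Finset.range r, pull (Pl X A') (H i) x,
    Submodule.neg_mem _ (Submodule.sum_mem _ fun i hi => (hst i (Finset.mem_range.1 hi)).1), ?_⟩
  rw [map_neg, ← hsum r le_rfl, hφ0, hφr]
  ext σ
  rw [cut_apply]
  have e2 : (-(pull (Pl X A') (fun σ => Finsupp.single σ 1) x -
      pull (Pl X A') (fun σ => Finsupp.single (σ.map (pe π).toEmbedding) 1) x)) σ =
      pull (Pl X A') (fun σ => Finsupp.single (σ.map (pe π).toEmbedding) 1) x σ -
      pull (Pl X A') (fun σ => Finsupp.single σ 1) x σ := by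
    rw [neg_sub]
    rfl
  rw [e2]
  have e3 : ta F π x σ = x (σ.map (pe π).toEmbedding) - x σ := rfl
  unfold pull
  by_cases hI : In X σ
  · rw [if_pos hI, e3]
    by_cases hP : Pl X A' σ
    · rw [if_pos hP, if_pos hP, pa_single, pa_single, one_mul, one_mul]
    · rw [if_neg hP, if_neg hP, sub_zero]
      have hall : ∀ v ∈ σ, v ∈ A' := by
        by_contra h
        exact hP ⟨hI, h⟩
      have h1 : x σ = 0 := by
        by_contra h
        exact (hx.2 σ h).2.1 fun v hv => hAA (hall v hv)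
      have h2 : x (σ.map (pe π).toEmbedding) = 0 := by
        by_contra h
        refine (hx.2 _ h).2.1 fun w hw => ?_
        obtain ⟨v, hv, rfl⟩ := map_pe_mem.1 hw
        exact hAA ((hπA v).1 (hall v hv))
      rw [h1, h2, sub_zero]
  · rw [if_neg hI, if_neg fun h => hI h.1, if_neg fun h => hI h.1, sub_zero]

end Pool.Agent.H91.PSL
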